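import Pool.Agent.Helper1.RoughWave

namespace Pool.Agent.Results.MP_577a3c_an.RoughOscillation

open MeasureTheory Metric Set Filter Topology
open scoped ENNReal NNReal Pointwise
open Pool.Agent.Helper1.RoughGeom Pool.Agent.Helper1.RoughWave

/-- The homogeneous kernel Omega(z/|z|)/|z|^d. -/
noncomputable def kernel {d : ℕ} (Om : sphere (0 : EuclideanSpace ℝ (Fin d)) 1 → ℝ)
    (z : EuclideanSpace ℝ (Fin d)) : ℝ :=
  open Classical in
  if h : z = 0 then 0 else Om ⟨‖z‖⁻¹ • z, by simp [norm_smul, h]⟩ / ‖z‖ ^ d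

/-- The rough singular integral: the limit, as the truncation radius tends to 0, of the
truncated convolution integrals. -/
noncomputable def TOm {d : ℕ} (Om : sphere (0 : EuclideanSpace ℝ (Fin d)) 1 → ℝ)
    (f : EuclideanSpace ℝ (Fin d) → ℝ) (x : EuclideanSpace ℝ (Fin d)) : ℝ :=
  limUnder (𝓝[>] (0 : ℝ)) (fun ε => ∫ y in {y | ε < ‖y‖}, kernel Om y * f (x - y))

/-- The function g_B for the ball B with centre c and radius ρ. -/
noncomputable def gB {d : ℕ} (Om : sphere (0 : EuclideanSpace ℝ (Fin d)) 1 → ℝ)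
    (f : EuclideanSpace ℝ (Fin d) → ℝ) (c : EuclideanSpace ℝ (Fin d)) (ρ : ℝ) :
    EuclideanSpace ℝ (Fin d) → ℝ :=
  TOm Om (indicator (ball c (2 * ρ))ᶜ f)

/-- The oscillation O(f;B), B the ball with centre c and radius ρ. -/
noncomputable def osc {d : ℕ} (Om : sphere (0 : EuclideanSpace ℝ (Fin d)) 1 → ℝ)
    (f : EuclideanSpace ℝ (Fin d) → ℝ) (c : EuclideanSpace ℝ (Fin d)) (ρ : ℝ) : ℝ≥0∞ :=
  ((volume (ball c ρ))⁻¹ ^ 2 *
    ∫⁻ x in ball c ρ, ∫⁻ y in ball c ρ, ‖gB Om f c ρ x - gB Om f c ρ y‖ₑ ^ 2) ^ (1 / 2 : ℝ)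

/-- The maximal average M_r(f;B), B the ball with centre c and radius ρ. -/
noncomputable def Mr {d : ℕ} (r : ℝ) (f : EuclideanSpace ℝ (Fin d) → ℝ)
    (c : EuclideanSpace ℝ (Fin d)) (ρ : ℝ) : ℝ≥0∞ :=
  ⨆ (c' : EuclideanSpace ℝ (Fin d)) (ρ' : ℝ) (_ : ball c ρ ⊆ ball c' ρ'),
    ((volume (ball c' ρ'))⁻¹ * ∫⁻ y in ball c' ρ', ‖f y‖ₑ ^ r) ^ (1 / r)

/-! ### The function Omega -/

noncomputable def Omega (n : ℕ) (φ : ℕ → ℝ) (θ : sphere (0 : EuclideanSpace ℝ (Fin (n + 2))) 1) :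
    ℝ :=
  if 0 < θ.1 0 then om φ (θ.1 1 / θ.1 0) else if θ.1 0 < 0 then -om φ (θ.1 1 / θ.1 0) else 0

lemma measurable_Omega (n : ℕ) (φ : ℕ → ℝ) : Measurable (Omega n φ) := by
  unfold Omega
  have h0 : Measurable (fun θ : sphere (0 : EuclideanSpace ℝ (Fin (n + 2))) 1 => θ.1 0) :=
    (measurable_coord n 0).comp measurable_subtype_coe
  have h1 : Measurable (fun θ : sphere (0 : EuclideanSpace ℝ (Fin (n + 2))) 1 => θ.1 1) :=
    (measurable_coord n 1).comp measurable_subtype_coe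
  have h2 := (measurable_om φ).comp (h1.div h0)
  refine Measurable.ite (measurableSet_lt measurable_const h0) h2 ?_
  exact Measurable.ite (measurableSet_lt h0 measurable_const) h2.neg measurable_const

lemma Omega_bdd (n : ℕ) (φ : ℕ → ℝ) (θ) : |Omega n φ θ| ≤ 1 := by
  unfold Omega
  split_ifs
  · rw [om_abs]
  · rw [abs_neg, om_abs]
  · simp

lemma Omega_neg (n : ℕ) (φ : ℕ → ℝ) (θ : sphere (0 : EuclideanSpace ℝ (Fin (n + 2))) 1) :
    Omega n φ (-θ) = -Omega n φ θ := by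
  unfold Omega
  have h0 : (-θ).1 0 = -(θ.1 0) := rfl
  have h1 : (-θ).1 1 = -(θ.1 1) := rfl
  rw [h0, h1, neg_div_neg_eq]
  rcases lt_trichotomy (θ.1 0) 0 with h | h | h
  · rw [if_pos (by linarith), if_neg (by linarith), if_pos h]; ring
  · rw [h]; simp
  · rw [if_neg (by linarith), if_pos (by linarith), if_pos h]

lemma toSphere_neg (n : ℕ) :
    MeasurePreserving (fun θ : sphere (0 : EuclideanSpace ℝ (Fin (n + 2))) 1 => -θ)
      (volume : Measure (EuclideanSpace ℝ (Fin (n + 2)))).toSphere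
      (volume : Measure (EuclideanSpace ℝ (Fin (n + 2)))).toSphere := by
  refine ⟨continuous_neg.measurable, ?_⟩
  ext s hs
  rw [Measure.map_apply continuous_neg.measurable hs, Measure.toSphere_apply' _ hs,
    Measure.toSphere_apply' _ (continuous_neg.measurable hs)]
  congr 1
  have : (Ioo (0 : ℝ) 1 •
      (Subtype.val '' ((fun θ : sphere (0 : EuclideanSpace ℝ (Fin (n + 2))) 1 => -θ) ⁻¹' s)) :
      Set (EuclideanSpace ℝ (Fin (n + 2)))) =
        Neg.neg ⁻¹' (Ioo (0 : ℝ) 1 • (Subtype.val '' s)) := by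
    ext y
    simp only [mem_preimage, Set.mem_smul, mem_image, Subtype.exists, mem_sphere_iff_norm, sub_zero]
    constructor
    · rintro ⟨a, ha, b, ⟨θ, hθ, hθs, rfl⟩, rfl⟩
      refine ⟨a, ha, -θ, ⟨-θ, by simpa using hθ, hθs, rfl⟩, by simp⟩
    · rintro ⟨a, ha, b, ⟨θ, hθ, hθs, rfl⟩, hy⟩
      refine ⟨a, ha, -θ, ⟨-θ, by simpa using hθ, ?_, rfl⟩, ?_⟩
      · have : (-⟨-θ, by simpa using hθ⟩ : sphere (0 : EuclideanSpace ℝ (Fin (n + 2))) 1) =
          ⟨θ, by simpa using hθ⟩ := by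
          apply Subtype.ext; simp
        rw [this]; exact hθs
      · rw [smul_neg, hy, neg_neg]
  rw [this, Measure.measure_preimage_neg]

lemma Omega_mean (n : ℕ) (φ : ℕ → ℝ) :
    ∫ θ, Omega n φ θ ∂((volume : Measure (EuclideanSpace ℝ (Fin (n + 2)))).toSphere) = 0 := by
  have h1 := (toSphere_neg n).integral_comp
    (Homeomorph.neg (sphere (0 : EuclideanSpace ℝ (Fin (n + 2))) 1)).measurableEmbedding (Omega n φ)
  simp only [Omega_neg] at h1
  rw [integral_neg] at h1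
  linarith

lemma kernel_pos (n : ℕ) (φ : ℕ → ℝ) (z : EuclideanSpace ℝ (Fin (n + 2))) (hz : 0 < z 0) :
    kernel (Omega n φ) z = om φ (z 1 / z 0) / ‖z‖ ^ (n + 2) := by
  have hz0 : z ≠ 0 := by rintro rfl; simp at hz
  have hn : 0 < ‖z‖ := norm_pos_iff.2 hz0
  unfold kernel
  rw [dif_neg hz0]
  congr 1
  unfold Omega
  have e0 : (‖z‖⁻¹ • z) 0 = ‖z‖⁻¹ * z 0 := rfl
  have e1 : (‖z‖⁻¹ • z) 1 = ‖z‖⁻¹ * z 1 := rfl
  have e2 : 0 < (‖z‖⁻¹ • z) 0 := by rw [e0]; positivity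
  rw [if_pos e2]
  show om φ ((‖z‖⁻¹ • z) 1 / (‖z‖⁻¹ • z) 0) = _
  rw [e0, e1, mul_div_mul_left _ _ (inv_ne_zero hn.ne')]

/-! ### The test functions -/

/-- Lebesgue measure of the good slopes -/
noncomputable def mm (φ : ℕ → ℝ) (j : ℕ) : ℝ := (volume (GG φ j)).toReal

noncomputable def aa (φ : ℕ → ℝ) (j : ℕ) : ℝ := 1 / Real.sqrt (mm φ j)

noncomputable def ff (n : ℕ) (φ : ℕ → ℝ) (N : ℕ) (y : EuclideanSpace ℝ (Fin (n + 2))) : ℝ :=
  ∑ j ∈ Finset.range N, (Reg n (RR j) (GG φ j)).indicator (fun y => aa φ j * om φ (y 1 / y 0)) y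

lemma mm_le (φ : ℕ → ℝ) (j : ℕ) : mm φ j ≤ 1 := by
  unfold mm
  have := ENNReal.toReal_mono ENNReal.one_ne_top (GG_volume_le φ j)
  simpa using this

lemma GG_ne_top (φ : ℕ → ℝ) (j : ℕ) : volume (GG φ j) ≠ ⊤ :=
  ne_top_of_le_ne_top ENNReal.one_ne_top (GG_volume_le φ j)

lemma mm_ge (φ : ℕ → ℝ) (hφ : ∀ j : ℕ,
    ENNReal.ofReal (1 / (4 * (((j : ℝ) + 1) * ((j : ℝ) + 2)))) ≤ volume (GG φ j)) (j : ℕ) :
    1 / (4 * (((j : ℝ) + 1) * ((j : ℝ) + 2))) ≤ mm φ j := by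
  unfold mm
  exact (ENNReal.ofReal_le_iff_le_toReal (GG_ne_top φ j)).1 (hφ j)

lemma measurable_ff (n : ℕ) (φ : ℕ → ℝ) (N : ℕ) : Measurable (ff n φ N) := by
  unfold ff
  refine Finset.measurable_sum _ (fun j _ => ?_)
  exact ((measurable_om φ).comp (measurable_slope n) |>.const_mul _).indicator
    (measurableSet_Reg n _ _ (measurableSet_GG φ j))

lemma Reg_norm (n : ℕ) (φ : ℕ → ℝ) (j : ℕ) (y : EuclideanSpace ℝ (Fin (n + 2)))
    (hy : y ∈ Reg n (RR j) (GG φ j)) : RR j ≤ ‖y‖ ∧ ‖y‖ ≤ (n + 2) * (51 / 50 * RR j) := by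
  obtain ⟨a, b, c, d⟩ := hy
  have hR := RR_pos j
  have hy0 : y 0 < 0 := by linarith
  constructor
  · have h := EuclideanSpace.norm_eq y
    have h2 : |y 0| ≤ ‖y‖ := by
      rw [← Real.norm_eq_abs]
      exact PiLp.norm_apply_le y 0
    rw [abs_of_neg hy0] at h2
    linarith
  · apply norm_le_of_coord
    intro i
    by_cases hi0 : i = 0
    · rw [hi0, abs_of_neg hy0]; linarith
    · by_cases hi1 : i = 1
      · rw [hi1]
        have h1 : |y 1| = |y 1 / y 0| * |y 0| := by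
          rw [← abs_mul, div_mul_cancel₀ _ hy0.ne]
        obtain ⟨g1, g2⟩ := GG_Ioo φ j _ d
        rw [h1, abs_of_neg hy0, abs_of_pos g1]
        nlinarith
      · have := c i hi0 hi1
        linarith

lemma ff_eq_zero (n : ℕ) (φ : ℕ → ℝ) (N : ℕ) (y : EuclideanSpace ℝ (Fin (n + 2)))
    (hy : ‖y‖ < 100) : ff n φ N y = 0 := by
  unfold ff
  apply Finset.sum_eq_zero
  intro j _
  apply indicator_of_notMem
  intro hmem
  have := (Reg_norm n φ j y hmem).1
  have := RR_ge j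
  linarith

lemma ff_bdd (n : ℕ) (φ : ℕ → ℝ) (N : ℕ) : ∃ M, ∀ y, |ff n φ N y| ≤ M := by
  refine ⟨∑ j ∈ Finset.range N, |aa φ j|, fun y => ?_⟩
  unfold ff
  refine (Finset.abs_sum_le_sum_abs _ _).trans (Finset.sum_le_sum (fun j _ => ?_))
  by_cases hy : y ∈ Reg n (RR j) (GG φ j)
  · rw [indicator_of_mem hy, abs_mul, om_abs, mul_one]
  · rw [indicator_of_notMem hy]; simp

lemma ff_compact (n : ℕ) (φ : ℕ → ℝ) (N : ℕ) : HasCompactSupport (ff n φ N) := by
  apply HasCompactSupport.of_support_subset_isCompact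
    (isCompact_closedBall (0 : EuclideanSpace ℝ (Fin (n + 2))) ((n + 2) * (51 / 50 * RR N)))
  intro y hy
  rw [mem_closedBall_zero_iff]
  by_contra hcon
  push Not at hcon
  apply hy
  unfold ff
  apply Finset.sum_eq_zero
  intro j hj
  apply indicator_of_notMem
  intro hmem
  have h1 := (Reg_norm n φ j y hmem).2
  have h2 := RR_mono j N (Finset.mem_range.1 hj)
  have h3 := RR_pos j
  have h4 : (0 : ℝ) < n + 2 := by positivity
  have : ((n : ℝ) + 2) * (51 / 50 * RR j) ≤ (n + 2) * (51 / 50 * RR N) := by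
    gcongr; linarith
  linarith

lemma ff_disj (n : ℕ) (φ : ℕ → ℝ) (j k : ℕ) (y : EuclideanSpace ℝ (Fin (n + 2)))
    (hj : y ∈ Reg n (RR j) (GG φ j)) (hk : y ∈ Reg n (RR k) (GG φ k)) : j = k := by
  obtain ⟨a, b, -, -⟩ := hj
  obtain ⟨a', b', -, -⟩ := hk
  have h1 := RR_pos j
  have h2 := RR_pos k
  rcases lt_trichotomy j k with h | h | h
  · have := RR_mono j k h; linarith
  · exact h
  · have := RR_mono k j h; linarith

/-! ### The operator on the unit ball -/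

lemma gB_eq (n : ℕ) (φ : ℕ → ℝ) (N : ℕ) (x : EuclideanSpace ℝ (Fin (n + 2))) (hx : ‖x‖ < 1) :
    gB (Omega n φ) (ff n φ N) 0 1 x = ∫ y, kernel (Omega n φ) (x - y) * ff n φ N y := by
  unfold gB TOm
  have h1 : indicator (ball (0 : EuclideanSpace ℝ (Fin (n + 2))) (2 * 1))ᶜ (ff n φ N) =
      ff n φ N := by
    ext y
    by_cases hy : y ∈ (ball (0 : EuclideanSpace ℝ (Fin (n + 2))) (2 * 1))ᶜ
    · rw [indicator_of_mem hy]
    · rw [indicator_of_notMem hy, ff_eq_zero]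
      rw [notMem_compl_iff, mem_ball_zero_iff] at hy
      linarith
  rw [h1]
  have h2 : (fun ε : ℝ => ∫ y in {y | ε < ‖y‖}, kernel (Omega n φ) y * ff n φ N (x - y)) =ᶠ[𝓝[>] 0]
      fun _ => ∫ y, kernel (Omega n φ) y * ff n φ N (x - y) := by
    filter_upwards [Ioo_mem_nhdsGT (show (0 : ℝ) < 1 by norm_num)] with ε hε
    apply setIntegral_eq_integral_of_forall_compl_eq_zero
    intro y hy
    have hy' : ‖y‖ ≤ ε := not_lt.1 hy
    rw [ff_eq_zero, mul_zero]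
    have := norm_sub_le x y
    linarith [hε.2]
  have h3 : Tendsto (fun ε : ℝ => ∫ y in {y | ε < ‖y‖}, kernel (Omega n φ) y * ff n φ N (x - y))
      (𝓝[>] 0) (𝓝 (∫ y, kernel (Omega n φ) y * ff n φ N (x - y))) :=
    tendsto_const_nhds.congr' h2.symm
  rw [h3.limUnder_eq]
  have h4 := integral_sub_left_eq_self (μ := (volume : Measure (EuclideanSpace ℝ (Fin (n + 2)))))
    (fun y => kernel (Omega n φ) (x - y) * ff n φ N y) x
  rw [← h4]
  congr 1
  ext y
  simp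

noncomputable def HH (n : ℕ) (φ : ℕ → ℝ) (N : ℕ) (x : EuclideanSpace ℝ (Fin (n + 2))) : ℝ :=
  ∑ j ∈ Finset.range N, ∫ y in Reg n (RR j) (GG φ j), aa φ j * (1 / ‖x - y‖ ^ (n + 2))

lemma dist_bounds (n : ℕ) (φ : ℕ → ℝ) (j : ℕ) (x y : EuclideanSpace ℝ (Fin (n + 2)))
    (hx : ‖x‖ < 1) (hy : y ∈ Reg n (RR j) (GG φ j)) :
    1 ≤ ‖x - y‖ ∧ ‖x - y‖ ≤ 2 * (n + 2) * RR j := by
  obtain ⟨h1, h2⟩ := Reg_norm n φ j y hy
  have h3 := RR_ge j
  constructor
  · have := norm_sub_norm_le y x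
    rw [norm_sub_rev] at this
    linarith
  · have := norm_sub_le x y
    have hn : (0 : ℝ) ≤ n := Nat.cast_nonneg n
    nlinarith

lemma measurable_inv (n : ℕ) (x : EuclideanSpace ℝ (Fin (n + 2))) (a : ℝ) :
    Measurable (fun y : EuclideanSpace ℝ (Fin (n + 2)) => a * (1 / ‖x - y‖ ^ (n + 2))) := by
  have : Measurable (fun y : EuclideanSpace ℝ (Fin (n + 2)) => ‖x - y‖ ^ (n + 2)) :=
    ((continuous_const.sub continuous_id).norm.pow _).measurable
  exact (this.const_div 1).const_mul a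

lemma Reg_vol_fin (n : ℕ) (κ : ℝ≥0) (hκ : ∀ G : Set ℝ, MeasurableSet G →
    volume (Reg n 1 G) = κ * volume G) (φ : ℕ → ℝ) (j : ℕ) :
    volume (Reg n (RR j) (GG φ j)) = ENNReal.ofReal (RR j ^ (n + 2) * (κ * mm φ j)) := by
  rw [Reg_volume n κ hκ _ (RR_pos j) _ (measurableSet_GG φ j),
    ENNReal.ofReal_mul (pow_nonneg (RR_pos j).le _),
    ENNReal.ofReal_mul (NNReal.coe_nonneg κ), ENNReal.ofReal_coe_nnreal, mm,
    ENNReal.ofReal_toReal (GG_ne_top φ j)]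

lemma integrableOn_inv (n : ℕ) (κ : ℝ≥0) (hκ : ∀ G : Set ℝ, MeasurableSet G →
    volume (Reg n 1 G) = κ * volume G) (φ : ℕ → ℝ) (j : ℕ) (x : EuclideanSpace ℝ (Fin (n + 2)))
    (hx : ‖x‖ < 1) (a : ℝ) :
    IntegrableOn (fun y => a * (1 / ‖x - y‖ ^ (n + 2))) (Reg n (RR j) (GG φ j)) := by
  apply Measure.integrableOn_of_bounded (M := |a|)
  · rw [Reg_vol_fin n κ hκ]; exact ENNReal.ofReal_ne_top
  · exact (measurable_inv n x a).aestronglyMeasurable
  · filter_upwards [ae_restrict_mem (measurableSet_Reg n _ _ (measurableSet_GG φ j))] with y hy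
    obtain ⟨h1, -⟩ := dist_bounds n φ j x y hx hy
    rw [Real.norm_eq_abs, abs_mul]
    have h2 : |1 / ‖x - y‖ ^ (n + 2)| ≤ 1 := by
      rw [abs_of_pos (by positivity)]
      rw [div_le_one (by positivity)]
      exact one_le_pow₀ h1
    calc |a| * |1 / ‖x - y‖ ^ (n + 2)| ≤ |a| * 1 := by gcongr
      _ = |a| := mul_one _

/-- common computation -/
lemma integral_eq (n : ℕ) (κ : ℝ≥0) (hκ : ∀ G : Set ℝ, MeasurableSet G →
    volume (Reg n 1 G) = κ * volume G) (φ : ℕ → ℝ) (N : ℕ) (x : EuclideanSpace ℝ (Fin (n + 2)))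
    (hx : ‖x‖ < 1) (s : ℝ)
    (h : ∀ j, ∀ y ∈ Reg n (RR j) (GG φ j), kernel (Omega n φ) (x - y) * om φ (y 1 / y 0) =
      s * (1 / ‖x - y‖ ^ (n + 2))) :
    ∫ y, kernel (Omega n φ) (x - y) * ff n φ N y = s * HH n φ N x := by
  have h1 : (fun y => kernel (Omega n φ) (x - y) * ff n φ N y) =
      fun y => ∑ j ∈ Finset.range N, (Reg n (RR j) (GG φ j)).indicator
        (fun y => (s * aa φ j) * (1 / ‖x - y‖ ^ (n + 2))) y := by
    ext y
    unfold ff
    rw [Finset.mul_sum]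
    apply Finset.sum_congr rfl
    intro j _
    by_cases hy : y ∈ Reg n (RR j) (GG φ j)
    · rw [indicator_of_mem hy, indicator_of_mem hy]
      have := h j y hy
      calc kernel (Omega n φ) (x - y) * (aa φ j * om φ (y 1 / y 0)) =
          aa φ j * (kernel (Omega n φ) (x - y) * om φ (y 1 / y 0)) := by ring
        _ = _ := by rw [this]; ring
    · rw [indicator_of_notMem hy, indicator_of_notMem hy, mul_zero]
  rw [h1, integral_finsetSum]
  · unfold HH
    rw [Finset.mul_sum]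
    apply Finset.sum_congr rfl
    intro j _
    rw [integral_indicator (measurableSet_Reg n _ _ (measurableSet_GG φ j))]
    rw [← integral_const_mul]
    congr 1
    ext y
    ring
  · intro j _
    rw [integrable_indicator_iff (measurableSet_Reg n _ _ (measurableSet_GG φ j))]
    exact integrableOn_inv n κ hκ φ j x hx _

lemma HH_ge (n : ℕ) (κ : ℝ≥0) (hκ : ∀ G : Set ℝ, MeasurableSet G →
    volume (Reg n 1 G) = κ * volume G) (φ : ℕ → ℝ) (N : ℕ) (x : EuclideanSpace ℝ (Fin (n + 2)))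
    (hx : ‖x‖ < 1) (hφ : ∀ j : ℕ,
    ENNReal.ofReal (1 / (4 * (((j : ℝ) + 1) * ((j : ℝ) + 2)))) ≤ volume (GG φ j)) :
    (κ / (2 * (n + 2)) ^ (n + 2) / 2) * ∑ j ∈ Finset.range N, 1 / ((j : ℝ) + 2) ≤ HH n φ N x := by
  unfold HH
  rw [Finset.mul_sum]
  apply Finset.sum_le_sum
  intro j _
  have hR := RR_pos j
  have hj : (0 : ℝ) ≤ j := Nat.cast_nonneg j
  have hm := mm_ge φ hφ j
  have hm0 : 0 < mm φ j := lt_of_lt_of_le (by positivity) hm
  have hs : 0 < Real.sqrt (mm φ j) := Real.sqrt_pos.2 hm0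
  have ha : 0 < aa φ j := by unfold aa; positivity
  have h1 : ∫ y in Reg n (RR j) (GG φ j), aa φ j * (1 / (2 * (n + 2) * RR j) ^ (n + 2)) ≤
      ∫ y in Reg n (RR j) (GG φ j), aa φ j * (1 / ‖x - y‖ ^ (n + 2)) := by
    apply setIntegral_mono_on _ (integrableOn_inv n κ hκ φ j x hx _)
      (measurableSet_Reg n _ _ (measurableSet_GG φ j))
    · intro y hy
      obtain ⟨h1, h2⟩ := dist_bounds n φ j x y hx hy
      gcongr
    · apply integrableOn_const
      · rw [Reg_vol_fin n κ hκ]; exact ENNReal.ofReal_ne_top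
      · exact enorm_ne_top
  refine le_trans ?_ h1
  rw [setIntegral_const, smul_eq_mul, Measure.real, Reg_vol_fin n κ hκ,
    ENNReal.toReal_ofReal (by positivity)]
  have hsq : 1 / (2 * ((j : ℝ) + 2)) ≤ Real.sqrt (mm φ j) := by
    apply Real.le_sqrt_of_sq_le
    refine le_trans ?_ hm
    rw [div_pow, one_pow]
    apply one_div_le_one_div_of_le (by positivity)
    nlinarith
  have hma : mm φ j * aa φ j = Real.sqrt (mm φ j) := by
    unfold aa
    rw [mul_one_div, div_eq_iff hs.ne']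
    exact (Real.mul_self_sqrt hm0.le).symm
  have e1 : RR j ^ (n + 2) * (κ * mm φ j) * (aa φ j * (1 / (2 * (n + 2) * RR j) ^ (n + 2))) =
      (κ / (2 * (n + 2)) ^ (n + 2)) * (mm φ j * aa φ j) := by
    rw [mul_pow (2 * ((n : ℝ) + 2)) (RR j) (n + 2)]
    field_simp
  rw [e1, hma]
  have hk : (0 : ℝ) ≤ κ / (2 * (n + 2)) ^ (n + 2) := by positivity
  calc (κ / (2 * (n + 2)) ^ (n + 2) / 2 : ℝ) * (1 / ((j : ℝ) + 2)) =
      (κ / (2 * (n + 2)) ^ (n + 2)) * (1 / (2 * ((j : ℝ) + 2))) := by field_simp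
    _ ≤ (κ / (2 * (n + 2)) ^ (n + 2)) * Real.sqrt (mm φ j) := by gcongr

/-- near the origin -/
lemma near_eq (n : ℕ) (φ : ℕ → ℝ) (x : EuclideanSpace ℝ (Fin (n + 2))) (hx0 : |x 0| ≤ 1 / 100)
    (hx1 : |x 1| ≤ 1 / 100) (j : ℕ) (y : EuclideanSpace ℝ (Fin (n + 2)))
    (hy : y ∈ Reg n (RR j) (GG φ j)) :
    kernel (Omega n φ) (x - y) * om φ (y 1 / y 0) = 1 * (1 / ‖x - y‖ ^ (n + 2)) := by
  have hy' := hy
  obtain ⟨a, b, c, d⟩ := hy
  obtain ⟨g1, g2⟩ := GG_Ioo φ j _ d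
  have hR := RR_ge j
  obtain ⟨p1, p2⟩ := abs_le.1 hx0
  obtain ⟨p3, p4⟩ := abs_le.1 hx1
  have hy0 : y 0 < 0 := by linarith
  have hz : 0 < (x - y) 0 := by
    show 0 < x 0 - y 0
    linarith
  rw [kernel_pos n φ _ hz]
  have hq : (x - y) 1 / (x - y) 0 - y 1 / y 0 = (x 1 - (y 1 / y 0) * x 0) / (x 0 - y 0) := by
    have e0 : (x - y) 0 = x 0 - y 0 := rfl
    have e1 : (x - y) 1 = x 1 - y 1 := rfl
    rw [e0] at hz
    rw [e0, e1]
    have := hy0.ne
    have := hz.ne'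
    field_simp
    ring
  have hom : om φ ((x - y) 1 / (x - y) 0) = om φ (y 1 / y 0) := by
    apply om_near φ j _ _ d
    rw [hq, abs_div]
    have e0 : (x - y) 0 = x 0 - y 0 := rfl
    rw [e0] at hz
    rw [abs_of_pos hz, div_div, div_le_div_iff₀ hz (by positivity)]
    have h1 : |x 1 - y 1 / y 0 * x 0| ≤ 2 / 100 := by
      rw [abs_le]
      set u := y 1 / y 0
      constructor <;> nlinarith
    have : |x 1 - y 1 / y 0 * x 0| * (100 * RR j) ≤ 2 / 100 * (100 * RR j) := by gcongr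
    nlinarith
  rw [hom]
  have := om_mul_self φ (y 1 / y 0)
  calc om φ (y 1 / y 0) / ‖x - y‖ ^ (n + 2) * om φ (y 1 / y 0) =
      (om φ (y 1 / y 0) * om φ (y 1 / y 0)) / ‖x - y‖ ^ (n + 2) := by ring
    _ = _ := by rw [this]; ring

/-- near the second point -/
lemma far_eq (n : ℕ) (φ : ℕ → ℝ) (x : EuclideanSpace ℝ (Fin (n + 2))) (hx0 : |x 0| ≤ 1 / 100)
    (hx1 : |x 1 - 1 / 2| ≤ 1 / 100) (j : ℕ) (y : EuclideanSpace ℝ (Fin (n + 2)))
    (hy : y ∈ Reg n (RR j) (GG φ j)) :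
    kernel (Omega n φ) (x - y) * om φ (y 1 / y 0) = (-1) * (1 / ‖x - y‖ ^ (n + 2)) := by
  have hy' := hy
  obtain ⟨a, b, c, d⟩ := hy
  obtain ⟨g1, g2⟩ := GG_Ioo φ j _ d
  have hR := RR_ge j
  obtain ⟨p1, p2⟩ := abs_le.1 hx0
  obtain ⟨p3, p4⟩ := abs_le.1 hx1
  have hy0 : y 0 < 0 := by linarith
  have hz : 0 < (x - y) 0 := by
    show 0 < x 0 - y 0
    linarith
  rw [kernel_pos n φ _ hz]
  have hq : (x - y) 1 / (x - y) 0 - y 1 / y 0 = (x 1 - (y 1 / y 0) * x 0) / (x 0 - y 0) := by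
    have e0 : (x - y) 0 = x 0 - y 0 := rfl
    have e1 : (x - y) 1 = x 1 - y 1 := rfl
    rw [e0] at hz
    rw [e0, e1]
    have := hy0.ne
    have := hz.ne'
    field_simp
    ring
  have e0 : (x - y) 0 = x 0 - y 0 := rfl
  rw [e0] at hz
  have hn1 : 48 / 100 ≤ x 1 - y 1 / y 0 * x 0 := by
    set u := y 1 / y 0
    nlinarith
  have hn2 : x 1 - y 1 / y 0 * x 0 ≤ 52 / 100 := by
    set u := y 1 / y 0
    nlinarith
  have hom : om φ ((x - y) 1 / (x - y) 0) = -om φ (y 1 / y 0) := by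
    apply om_far φ j _ _ d
    · rw [hq, div_div, div_le_div_iff₀ (by positivity) hz]
      have : 48 / 100 * (100 * RR j) ≤ (x 1 - y 1 / y 0 * x 0) * (100 * RR j) := by gcongr
      nlinarith
    · rw [hq, div_div, div_le_div_iff₀ hz (by positivity)]
      have : (x 1 - y 1 / y 0 * x 0) * (100 * RR j) ≤ 52 / 100 * (100 * RR j) := by gcongr
      nlinarith
  rw [hom]
  have := om_mul_self φ (y 1 / y 0)
  calc -om φ (y 1 / y 0) / ‖x - y‖ ^ (n + 2) * om φ (y 1 / y 0) =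
      (-(om φ (y 1 / y 0) * om φ (y 1 / y 0))) / ‖x - y‖ ^ (n + 2) := by ring
    _ = _ := by rw [this]; ring

/-- the second point -/
noncomputable def pt (n : ℕ) : EuclideanSpace ℝ (Fin (n + 2)) :=
  EuclideanSpace.single (1 : Fin (n + 2)) (1 / 2 : ℝ)

lemma osc_ge (n : ℕ) (κ : ℝ≥0) (hκ : ∀ G : Set ℝ, MeasurableSet G →
    volume (Reg n 1 G) = κ * volume G) (φ : ℕ → ℝ) (N : ℕ) (hφ : ∀ j : ℕ,
    ENNReal.ofReal (1 / (4 * (((j : ℝ) + 1) * ((j : ℝ) + 2)))) ≤ volume (GG φ j)) :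
    ((volume (ball (0 : EuclideanSpace ℝ (Fin (n + 2))) 1))⁻¹ ^ 2 *
      (ENNReal.ofReal ((κ / (2 * (n + 2)) ^ (n + 2)) *
        ∑ j ∈ Finset.range N, 1 / ((j : ℝ) + 2)) ^ 2 *
        volume (ball (pt n) (1 / 100)) * volume (ball (0 : EuclideanSpace ℝ (Fin (n + 2)))
          (1 / 100)))) ^ (1 / 2 : ℝ) ≤ osc (Omega n φ) (ff n φ N) 0 1 := by
  unfold osc
  apply ENNReal.rpow_le_rpow _ (by norm_num)
  apply mul_le_mul_right
  set L : ℝ := (κ / (2 * (n + 2)) ^ (n + 2)) * ∑ j ∈ Finset.range N, 1 / ((j : ℝ) + 2) with hL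
  have hD1 : ball (0 : EuclideanSpace ℝ (Fin (n + 2))) (1 / 100) ⊆ ball 0 1 :=
    ball_subset_ball (by norm_num)
  have hpt : ‖pt n‖ = 1 / 2 := by
    unfold pt; rw [PiLp.norm_single]; norm_num
  have hD2 : ball (pt n) (1 / 100) ⊆ ball (0 : EuclideanSpace ℝ (Fin (n + 2))) 1 := by
    apply ball_subset_ball'
    rw [dist_zero_right, hpt]; norm_num
  have hL0 : 0 ≤ L := by positivity
  have hdiff : ∀ x ∈ ball (0 : EuclideanSpace ℝ (Fin (n + 2))) (1 / 100),
      ∀ y ∈ ball (pt n) (1 / 100),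
      ENNReal.ofReal L ^ 2 ≤ ‖gB (Omega n φ) (ff n φ N) 0 1 x - gB (Omega n φ) (ff n φ N) 0 1 y‖ₑ ^ 2 := by
    intro x hx y hy
    have hx1 : ‖x‖ < 1 := by
      have := hD1 hx; rwa [mem_ball_zero_iff] at this
    have hy1 : ‖y‖ < 1 := by
      have := hD2 hy; rwa [mem_ball_zero_iff] at this
    have hxc : ∀ i, |x i| ≤ 1 / 100 := by
      intro i
      rw [mem_ball_zero_iff] at hx
      rw [← Real.norm_eq_abs]
      exact (PiLp.norm_apply_le x i).trans hx.le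
    have hyc : ∀ i, |y i - pt n i| ≤ 1 / 100 := by
      intro i
      rw [mem_ball_iff_norm] at hy
      rw [← Real.norm_eq_abs]
      exact (PiLp.norm_apply_le (y - pt n) i).trans hy.le
    have e1 : gB (Omega n φ) (ff n φ N) 0 1 x = 1 * HH n φ N x := by
      rw [gB_eq n φ N x hx1]
      exact integral_eq n κ hκ φ N x hx1 1 (fun j y hy => near_eq n φ x (hxc 0) (hxc 1) j y hy)
    have e2 : gB (Omega n φ) (ff n φ N) 0 1 y = (-1) * HH n φ N y := by
      rw [gB_eq n φ N y hy1]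
      apply integral_eq n κ hκ φ N y hy1 (-1) (fun j z hz => far_eq n φ y ?_ ?_ j z hz)
      · have := hyc 0
        have h0 : pt n 0 = 0 := by unfold pt; simp
        rw [h0, sub_zero] at this; exact this
      · have := hyc 1
        have h0 : pt n 1 = 1 / 2 := by unfold pt; simp
        rw [h0] at this; exact this
    have g1 := HH_ge n κ hκ φ N x hx1 hφ
    have g2 := HH_ge n κ hκ φ N y hy1 hφ
    have g3 : L ≤ gB (Omega n φ) (ff n φ N) 0 1 x - gB (Omega n φ) (ff n φ N) 0 1 y := by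
      rw [e1, e2, hL]
      have : (κ / (2 * (n + 2)) ^ (n + 2) : ℝ) * ∑ j ∈ Finset.range N, 1 / ((j : ℝ) + 2) =
        (κ / (2 * (n + 2)) ^ (n + 2) / 2) * ∑ j ∈ Finset.range N, 1 / ((j : ℝ) + 2) +
        (κ / (2 * (n + 2)) ^ (n + 2) / 2) * ∑ j ∈ Finset.range N, 1 / ((j : ℝ) + 2) := by ring
      rw [this]
      linarith
    gcongr
    rw [Real.enorm_eq_ofReal_abs]
    exact ENNReal.ofReal_le_ofReal (g3.trans (le_abs_self _))
  calc ENNReal.ofReal L ^ 2 * volume (ball (pt n) (1 / 100)) *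
        volume (ball (0 : EuclideanSpace ℝ (Fin (n + 2))) (1 / 100))
      = ∫⁻ _ in ball (0 : EuclideanSpace ℝ (Fin (n + 2))) (1 / 100),
          ENNReal.ofReal L ^ 2 * volume (ball (pt n) (1 / 100)) := by
        rw [setLIntegral_const]
    _ ≤ ∫⁻ x in ball (0 : EuclideanSpace ℝ (Fin (n + 2))) (1 / 100),
          ∫⁻ y in ball (0 : EuclideanSpace ℝ (Fin (n + 2))) 1,
            ‖gB (Omega n φ) (ff n φ N) 0 1 x - gB (Omega n φ) (ff n φ N) 0 1 y‖ₑ ^ 2 := by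
        apply setLIntegral_mono' measurableSet_ball
        intro x hx
        calc ENNReal.ofReal L ^ 2 * volume (ball (pt n) (1 / 100)) =
            ∫⁻ _ in ball (pt n) (1 / 100), ENNReal.ofReal L ^ 2 := by
              rw [setLIntegral_const]
          _ ≤ ∫⁻ y in ball (pt n) (1 / 100),
            ‖gB (Omega n φ) (ff n φ N) 0 1 x - gB (Omega n φ) (ff n φ N) 0 1 y‖ₑ ^ 2 := by
              apply setLIntegral_mono' measurableSet_ball
              intro y hy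
              exact hdiff x hx y hy
          _ ≤ _ := lintegral_mono_set hD2
    _ ≤ _ := lintegral_mono_set hD1

lemma Mr_le (n : ℕ) (κ : ℝ≥0) (hκ : ∀ G : Set ℝ, MeasurableSet G →
    volume (Reg n 1 G) = κ * volume G) (φ : ℕ → ℝ) (N : ℕ) (hφ : ∀ j : ℕ,
    ENNReal.ofReal (1 / (4 * (((j : ℝ) + 1) * ((j : ℝ) + 2)))) ≤ volume (GG φ j))
    (r : ℝ) (hr1 : 1 ≤ r) (hr2 : r < 2) :
    Mr r (ff n φ N) 0 1 ≤ ((volume (ball (0 : EuclideanSpace ℝ (Fin (n + 2))) 1))⁻¹ *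
      ENNReal.ofReal (2 * κ * 2 ^ (n + 2))) ^ (1 / r) := by
  unfold Mr
  refine iSup_le (fun c' => iSup_le (fun ρ' => iSup_le (fun hsub => ?_)))
  apply ENNReal.rpow_le_rpow _ (by positivity)
  have h0 : (0 : EuclideanSpace ℝ (Fin (n + 2))) ∈ ball c' ρ' := hsub (mem_ball_self one_pos)
  have hρ : 0 < ρ' := pos_of_mem_ball h0
  have hpt : ∀ y ∈ ball c' ρ', ‖y‖ < 2 * ρ' := by
    intro y hy
    have h1 : dist y 0 ≤ dist y c' + dist c' 0 := dist_triangle _ _ _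
    rw [dist_zero_right] at h1
    rw [mem_ball] at hy h0
    rw [dist_comm] at h0
    linarith
  let F : Finset ℕ := (Finset.range N).filter (fun j => RR j < 2 * ρ')
  have hpoint : ∀ y ∈ ball c' ρ', ‖ff n φ N y‖ₑ ^ r ≤
      ∑ j ∈ F, (Reg n (RR j) (GG φ j)).indicator (fun _ => ENNReal.ofReal (aa φ j) ^ r) y := by
    intro y hy
    by_cases hex : ∃ j ∈ Finset.range N, y ∈ Reg n (RR j) (GG φ j)
    · obtain ⟨j, hj, hyj⟩ := hex
      have hff : ff n φ N y = aa φ j * om φ (y 1 / y 0) := by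
        unfold ff
        rw [Finset.sum_eq_single j]
        · rw [indicator_of_mem hyj]
        · intro k _ hkj
          apply indicator_of_notMem
          intro hyk
          exact hkj (ff_disj n φ k j y hyk hyj)
        · intro h; exact absurd hj h
      have hm := mm_ge φ hφ j
      have hj0 : (0 : ℝ) ≤ j := Nat.cast_nonneg j
      have hm0 : 0 < mm φ j := lt_of_lt_of_le (by positivity) hm
      have ha : 0 < aa φ j := by
        unfold aa
        have := Real.sqrt_pos.2 hm0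
        positivity
      have hjF : j ∈ F := by
        rw [Finset.mem_filter]
        exact ⟨hj, (Reg_norm n φ j y hyj).1.trans_lt (hpt y hy)⟩
      calc ‖ff n φ N y‖ₑ ^ r = ENNReal.ofReal (aa φ j) ^ r := by
            rw [hff, Real.enorm_eq_ofReal_abs, abs_mul, om_abs, mul_one, abs_of_pos ha]
        _ = (Reg n (RR j) (GG φ j)).indicator (fun _ => ENNReal.ofReal (aa φ j) ^ r) y := by
            rw [indicator_of_mem hyj]
        _ ≤ _ := Finset.single_le_sum (f := fun j => (Reg n (RR j) (GG φ j)).indicator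
            (fun _ => ENNReal.ofReal (aa φ j) ^ r) y) (fun _ _ => zero_le) hjF
    · push Not at hex
      have hff : ff n φ N y = 0 := by
        unfold ff
        apply Finset.sum_eq_zero
        intro j hj
        exact indicator_of_notMem (hex j hj) _
      rw [hff]
      simp only [enorm_zero]
      rw [ENNReal.zero_rpow_of_pos (by linarith)]
      exact zero_le
  have hint : ∫⁻ y in ball c' ρ', ‖ff n φ N y‖ₑ ^ r ≤
      ENNReal.ofReal (2 * κ * (2 * ρ') ^ (n + 2)) := by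
    calc ∫⁻ y in ball c' ρ', ‖ff n φ N y‖ₑ ^ r ≤
        ∫⁻ y in ball c' ρ', ∑ j ∈ F, (Reg n (RR j) (GG φ j)).indicator
          (fun _ => ENNReal.ofReal (aa φ j) ^ r) y :=
          setLIntegral_mono' measurableSet_ball hpoint
      _ ≤ ∫⁻ y, ∑ j ∈ F, (Reg n (RR j) (GG φ j)).indicator
          (fun _ => ENNReal.ofReal (aa φ j) ^ r) y := setLIntegral_le_lintegral _ _
      _ = ∑ j ∈ F, ∫⁻ y, (Reg n (RR j) (GG φ j)).indicator
          (fun _ => ENNReal.ofReal (aa φ j) ^ r) y := by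
          rw [lintegral_finsetSum]
          intro j _
          exact measurable_const.indicator (measurableSet_Reg n _ _ (measurableSet_GG φ j))
      _ ≤ ∑ j ∈ F, ENNReal.ofReal (κ * RR j ^ (n + 2)) := by
          apply Finset.sum_le_sum
          intro j _
          rw [lintegral_indicator_const (measurableSet_Reg n _ _ (measurableSet_GG φ j)),
            Reg_vol_fin n κ hκ]
          have hm := mm_ge φ hφ j
          have hj0 : (0 : ℝ) ≤ j := Nat.cast_nonneg j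
          have hm0 : 0 < mm φ j := lt_of_lt_of_le (by positivity) hm
          have hm1 := mm_le φ j
          have hs := Real.sqrt_pos.2 hm0
          have ha : 0 < aa φ j := by unfold aa; positivity
          have ha1 : 1 ≤ aa φ j := by
            unfold aa
            rw [le_div_iff₀ hs, one_mul]
            exact Real.sqrt_le_one.2 hm1
          have har : aa φ j ^ r ≤ aa φ j ^ (2 : ℝ) := Real.rpow_le_rpow_of_exponent_le ha1 hr2.le
          have ha2 : aa φ j ^ (2 : ℝ) * mm φ j = 1 := by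
            rw [Real.rpow_two]
            unfold aa
            rw [div_pow, one_pow, Real.sq_sqrt hm0.le]
            field_simp
          rw [ENNReal.ofReal_rpow_of_pos ha, ← ENNReal.ofReal_mul (by positivity)]
          apply ENNReal.ofReal_le_ofReal
          have hR := pow_pos (RR_pos j) (n + 2)
          have hk := NNReal.coe_nonneg κ
          calc aa φ j ^ r * (RR j ^ (n + 2) * (κ * mm φ j)) ≤
              aa φ j ^ (2 : ℝ) * (RR j ^ (n + 2) * (κ * mm φ j)) := by gcongr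
            _ = (aa φ j ^ (2 : ℝ) * mm φ j) * (κ * RR j ^ (n + 2)) := by ring
            _ = κ * RR j ^ (n + 2) := by rw [ha2, one_mul]
      _ = ENNReal.ofReal (∑ j ∈ F, κ * RR j ^ (n + 2)) := by
          rw [ENNReal.ofReal_sum_of_nonneg]
          intro j _
          have hR := pow_pos (RR_pos j) (n + 2)
          positivity
      _ ≤ ENNReal.ofReal (2 * κ * (2 * ρ') ^ (n + 2)) := by
          apply ENNReal.ofReal_le_ofReal
          rw [← Finset.mul_sum]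
          have := sum_RR_pow (n + 2) (by omega) (2 * ρ') (by positivity) F
            (fun j hj => (Finset.mem_filter.1 hj).2)
          have hk := NNReal.coe_nonneg κ
          calc (κ : ℝ) * ∑ j ∈ F, RR j ^ (n + 2) ≤ κ * (2 * (2 * ρ') ^ (n + 2)) := by gcongr
            _ = _ := by ring
  calc (volume (ball c' ρ'))⁻¹ * ∫⁻ y in ball c' ρ', ‖ff n φ N y‖ₑ ^ r ≤
      (volume (ball c' ρ'))⁻¹ * ENNReal.ofReal (2 * κ * (2 * ρ') ^ (n + 2)) := by gcongr
    _ = (volume (ball (0 : EuclideanSpace ℝ (Fin (n + 2))) 1))⁻¹ *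
      ENNReal.ofReal (2 * κ * 2 ^ (n + 2)) := by
      rw [Measure.addHaar_ball _ _ hρ.le, finrank_euclideanSpace, Fintype.card_fin]
      have hp : 0 < ρ' ^ (n + 2) := by positivity
      rw [ENNReal.mul_inv (Or.inl (by simpa using hp)) (Or.inl ENNReal.ofReal_ne_top)]
      have : 2 * (κ : ℝ) * (2 * ρ') ^ (n + 2) = ρ' ^ (n + 2) * (2 * κ * 2 ^ (n + 2)) := by
        rw [mul_pow]; ring
      rw [this, ENNReal.ofReal_mul hp.le]
      have hne : ENNReal.ofReal (ρ' ^ (n + 2)) ≠ 0 := by simpa using hp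
      calc (ENNReal.ofReal (ρ' ^ (n + 2)))⁻¹ * (volume (ball (0 : EuclideanSpace ℝ (Fin (n + 2))) 1))⁻¹ *
          (ENNReal.ofReal (ρ' ^ (n + 2)) * ENNReal.ofReal (2 * κ * 2 ^ (n + 2))) =
          ((ENNReal.ofReal (ρ' ^ (n + 2)))⁻¹ * ENNReal.ofReal (ρ' ^ (n + 2))) *
          ((volume (ball (0 : EuclideanSpace ℝ (Fin (n + 2))) 1))⁻¹ *
            ENNReal.ofReal (2 * κ * 2 ^ (n + 2))) := by ring
        _ = _ := by rw [ENNReal.inv_mul_cancel hne ENNReal.ofReal_ne_top, one_mul]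

theorem result (d : ℕ) (hd : 2 ≤ d) :
    ∃ Om : sphere (0 : EuclideanSpace ℝ (Fin d)) 1 → ℝ, Measurable Om ∧ (∃ K, ∀ θ, |Om θ| ≤ K) ∧
      ∫ θ, Om θ ∂((volume : Measure (EuclideanSpace ℝ (Fin d))).toSphere) = 0 ∧
      ∀ r : ℝ, 1 ≤ r → r < 2 →
        ¬ ∃ C : ℝ≥0, ∀ (c : EuclideanSpace ℝ (Fin d)) (ρ : ℝ), 0 < ρ →
          ∀ f : EuclideanSpace ℝ (Fin d) → ℝ, Measurable f → (∃ K, ∀ x, |f x| ≤ K) →
            HasCompactSupport f → osc Om f c ρ ≤ C * Mr r f c ρ := by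
  obtain ⟨n, rfl⟩ := Nat.exists_eq_add_of_le' hd
  obtain ⟨κ, hκ0, hκ⟩ := exists_kappa n
  obtain ⟨φ, hφ⟩ := exists_phase
  refine ⟨Omega n φ, measurable_Omega n φ, ⟨1, Omega_bdd n φ⟩, Omega_mean n φ, ?_⟩
  rintro r hr1 hr2 ⟨C, hC⟩
  -- the constants
  set v := volume (ball (0 : EuclideanSpace ℝ (Fin (n + 2))) 1) with hv
  have hv0 : v ≠ 0 := (measure_ball_pos volume _ one_pos).ne'
  have hvt : v ≠ ⊤ := measure_ball_lt_top.ne
  set w1 := volume (ball (pt n) (1 / 100)) with hw1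
  set w2 := volume (ball (0 : EuclideanSpace ℝ (Fin (n + 2))) (1 / 100)) with hw2
  have hw10 : w1 ≠ 0 := (measure_ball_pos volume _ (by norm_num)).ne'
  have hw20 : w2 ≠ 0 := (measure_ball_pos volume _ (by norm_num)).ne'
  set B : ℝ≥0∞ := C * (v⁻¹ * ENNReal.ofReal (2 * κ * 2 ^ (n + 2))) ^ (1 / r) with hB
  have hBt : B ≠ ⊤ := by
    apply ENNReal.mul_ne_top ENNReal.coe_ne_top
    apply ENNReal.rpow_ne_top_of_nonneg (by positivity)
    exact ENNReal.mul_ne_top (ENNReal.inv_ne_top.2 hv0) ENNReal.ofReal_ne_top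
  have key : ∀ N : ℕ, (v⁻¹ ^ 2 * (ENNReal.ofReal ((κ / (2 * (n + 2)) ^ (n + 2)) *
        ∑ j ∈ Finset.range N, 1 / ((j : ℝ) + 2)) ^ 2 * w1 * w2)) ^ (1 / 2 : ℝ) ≤ B := by
    intro N
    have h1 := osc_ge n κ hκ φ N hφ
    have h2 := hC 0 1 one_pos (ff n φ N) (measurable_ff n φ N) (ff_bdd n φ N) (ff_compact n φ N)
    have h3 := Mr_le n κ hκ φ N hφ r hr1 hr2
    calc _ ≤ _ := h1
      _ ≤ _ := h2
      _ ≤ _ := by rw [hB]; gcongr
  -- square
  have key2 : ∀ N : ℕ, ENNReal.ofReal ((κ / (2 * (n + 2)) ^ (n + 2)) *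
        ∑ j ∈ Finset.range N, 1 / ((j : ℝ) + 2)) ^ 2 ≤ B ^ 2 * (v⁻¹ ^ 2 * w1 * w2)⁻¹ := by
    intro N
    have h1 := ENNReal.rpow_le_rpow (key N) (show (0 : ℝ) ≤ 2 by norm_num)
    rw [← ENNReal.rpow_mul] at h1
    norm_num at h1
    have hne : v⁻¹ ^ 2 * w1 * w2 ≠ 0 := by
      apply mul_ne_zero (mul_ne_zero _ hw10) hw20
      exact pow_ne_zero _ (ENNReal.inv_ne_zero.2 hvt)
    have hnt : v⁻¹ ^ 2 * w1 * w2 ≠ ⊤ := by
      apply ENNReal.mul_ne_top (ENNReal.mul_ne_top _ measure_ball_lt_top.ne) measure_ball_lt_top.ne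
      exact ENNReal.pow_ne_top (ENNReal.inv_ne_top.2 hv0)
    rw [← div_eq_mul_inv, ENNReal.le_div_iff_mul_le (Or.inl hne) (Or.inl hnt)]
    refine le_trans (le_of_eq ?_) h1
    simp only [one_div]
    ring
  have hD : B ^ 2 * (v⁻¹ ^ 2 * w1 * w2)⁻¹ ≠ ⊤ := by
    apply ENNReal.mul_ne_top (ENNReal.pow_ne_top hBt)
    apply ENNReal.inv_ne_top.2
    apply mul_ne_zero (mul_ne_zero _ hw10) hw20
    exact pow_ne_zero _ (ENNReal.inv_ne_zero.2 hvt)
  -- divergence
  have hk : (0 : ℝ) < κ / (2 * (n + 2)) ^ (n + 2) := by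
    have : (0 : ℝ) < κ := hκ0
    positivity
  have hdiv : Tendsto (fun N : ℕ => ∑ j ∈ Finset.range N, 1 / ((j : ℝ) + 2)) atTop atTop := by
    have h1 := Real.tendsto_sum_range_one_div_nat_succ_atTop
    have h2 : (fun N : ℕ => ∑ j ∈ Finset.range N, 1 / ((j : ℝ) + 2)) =
        fun N : ℕ => (∑ j ∈ Finset.range (N + 1), 1 / ((j : ℝ) + 1)) - 1 := by
      ext N
      rw [Finset.sum_range_succ']
      push_cast
      have : ∀ j : ℕ, (1 : ℝ) / ((j : ℝ) + 1 + 1) = 1 / ((j : ℝ) + 2) := by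
        intro j; congr 1; ring
      simp only [this]
      norm_num
    rw [h2]
    apply tendsto_atTop_add_const_right _ (-1 : ℝ)
    exact h1.comp (tendsto_add_atTop_nat 1)
  have hdiv2 := hdiv.const_mul_atTop hk
  set D := (B ^ 2 * (v⁻¹ ^ 2 * w1 * w2)⁻¹).toReal with hDdef
  obtain ⟨N, hN⟩ := (hdiv2.eventually_gt_atTop (D + 1)).exists
  have h1 := key2 N
  have hD0 : 0 ≤ D := ENNReal.toReal_nonneg
  rw [← ENNReal.ofReal_toReal hD, ← hDdef, ← ENNReal.ofReal_pow (by linarith),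
    ENNReal.ofReal_le_ofReal_iff hD0] at h1
  nlinarith

end Pool.Agent.Results.MP_577a3c_an.RoughOscillation
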